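import Pool.Agent.GBS.Stmts

/-!
# GBS squad, row CAL: calculus of `dr`, `dM`
-/

set_option autoImplicit false

noncomputable section

open scoped ContDiff Topology RealInnerProductSpace
open Set MeasureTheory Matrix

namespace Pool.Agent.GBS.H27

open Pool.Agent.RF Pool.Agent.MVS Pool.Agent.GBS

theorem isOpen_UZ : IsOpen UZ := isOpen_univ.prod (isOpen_ne : IsOpen {x : E5 | x ≠ 0})

theorem diffAt {f : Z → ℝ} (hf : ContDiffOn ℝ ∞ f UZ) {z : Z} (hz : z ∈ UZ) :
    DifferentiableAt ℝ f z :=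
  (hf.contDiffAt (isOpen_UZ.mem_nhds hz)).differentiableAt (by simp)

theorem smooth_dr {f : Z → ℝ} (hf : ContDiffOn ℝ ∞ f UZ) (v : Z) : ContDiffOn ℝ ∞ (dr v f) UZ := by
  have h1 : ContDiffOn ℝ ∞ (fderiv ℝ f) UZ := hf.fderiv_of_isOpen isOpen_UZ (by simp)
  exact h1.clm_apply contDiffOn_const

theorem dr_comm {f : Z → ℝ} (hf : ContDiffOn ℝ ∞ f UZ) {z : Z} (hz : z ∈ UZ) (v v' : Z) :
    dr v (dr v' f) z = dr v' (dr v f) z := by
  have h1 : ContDiffOn ℝ ∞ (fderiv ℝ f) UZ := hf.fderiv_of_isOpen isOpen_UZ (by simp)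
  have h2 : DifferentiableAt ℝ (fderiv ℝ f) z :=
    (h1.contDiffAt (isOpen_UZ.mem_nhds hz)).differentiableAt (by simp)
  have key : ∀ u u' : Z, dr u (dr u' f) z = fderiv ℝ (fderiv ℝ f) z u u' := by
    intro u u'
    have h3 : HasFDerivAt (fun y => fderiv ℝ f y u')
        ((fderiv ℝ (fderiv ℝ f) z).flip u') z := by
      have h4 := h2.hasFDerivAt.clm_apply (hasFDerivAt_const u' z)
      simpa using h4
    show fderiv ℝ (fun y => fderiv ℝ f y u') z u = _
    rw [h3.fderiv]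
    rfl
  rw [key, key]
  have hs : IsSymmSndFDerivAt ℝ f z :=
    (hf.contDiffAt (isOpen_UZ.mem_nhds hz)).isSymmSndFDerivAt (by
      rw [minSmoothness_of_isRCLikeNormedField]
      exact WithTop.coe_le_coe.2 le_top)
  exact hs.eq v v'

theorem dr_add {f g : Z → ℝ} {z : Z} (hf : DifferentiableAt ℝ f z) (hg : DifferentiableAt ℝ g z)
    (v : Z) : dr v (fun z => f z + g z) z = dr v f z + dr v g z := by
  show fderiv ℝ (fun z => f z + g z) z v = fderiv ℝ f z v + fderiv ℝ g z v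
  rw [(hf.hasFDerivAt.fun_add hg.hasFDerivAt).fderiv]
  rfl

theorem dr_sub {f g : Z → ℝ} {z : Z} (hf : DifferentiableAt ℝ f z) (hg : DifferentiableAt ℝ g z)
    (v : Z) : dr v (fun z => f z - g z) z = dr v f z - dr v g z := by
  show fderiv ℝ (fun z => f z - g z) z v = fderiv ℝ f z v - fderiv ℝ g z v
  rw [(hf.hasFDerivAt.fun_sub hg.hasFDerivAt).fderiv]
  rfl

theorem dr_mul {f g : Z → ℝ} {z : Z} (hf : DifferentiableAt ℝ f z) (hg : DifferentiableAt ℝ g z)
    (v : Z) : dr v (fun z => f z * g z) z = dr v f z * g z + f z * dr v g z := by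
  show fderiv ℝ (fun z => f z * g z) z v = fderiv ℝ f z v * g z + f z * fderiv ℝ g z v
  rw [(hf.hasFDerivAt.fun_mul hg.hasFDerivAt).fderiv]
  simp [smul_eq_mul]
  ring

theorem dr_sum {ι : Type} [Fintype ι] {f : ι → Z → ℝ} {z : Z}
    (hf : ∀ i, DifferentiableAt ℝ (f i) z) (v : Z) :
    dr v (fun z => ∑ i, f i z) z = ∑ i, dr v (f i) z := by
  show fderiv ℝ (fun z => ∑ i, f i z) z v = ∑ i, fderiv ℝ (f i) z v
  rw [(HasFDerivAt.fun_sum fun i (_ : i ∈ Finset.univ) => (hf i).hasFDerivAt).fderiv]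
  simp

theorem eps_coeff (i j k l : Fin 5) : ∃ c : Fin 5 → ℝ, ∀ u : Fin 5 → ℝ,
    eps u i j k l = ∑ m, c m * u m := by
  refine ⟨fun m => (-1) ^ (m : ℕ) * ((Matrix.of ![(0 : Fin 5 → ℝ), Pi.single i 1, Pi.single j 1,
    Pi.single k 1, Pi.single l 1]).submatrix Fin.succ m.succAbove).det, fun u => ?_⟩
  rw [eps, Matrix.det_succ_row_zero]
  refine Finset.sum_congr rfl fun m _ => ?_
  have h1 : (Matrix.of ![u, Pi.single i 1, Pi.single j 1, Pi.single k 1, Pi.single l 1]).submatrix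
      Fin.succ m.succAbove = (Matrix.of ![(0 : Fin 5 → ℝ), Pi.single i 1, Pi.single j 1,
        Pi.single k 1, Pi.single l 1]).submatrix Fin.succ m.succAbove := rfl
  rw [h1]
  show (-1) ^ (m : ℕ) * u m * _ = _
  ring

/-- `z ↦ eps (cf z.2) i j k l` is a continuous linear map -/
theorem eps_clm (i j k l : Fin 5) : ∃ L : Z →L[ℝ] ℝ, ∀ z : Z, eps (cf z.2) i j k l = L z := by
  obtain ⟨c, hc⟩ := eps_coeff i j k l
  refine ⟨∑ m, c m • ((EuclideanSpace.proj (𝕜 := ℝ) m).comp (ContinuousLinearMap.snd ℝ ℝ E5)),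
    fun z => ?_⟩
  rw [hc]
  simp [cf]

theorem smooth_eps (i j k l : Fin 5) : ContDiff ℝ ∞ (fun z : Z => eps (cf z.2) i j k l) := by
  obtain ⟨L, hL⟩ := eps_clm i j k l
  simp only [hL]
  exact L.contDiff

theorem dr_eps (i j k l : Fin 5) (z v : Z) :
    dr v (fun z : Z => eps (cf z.2) i j k l) z = eps (cf v.2) i j k l := by
  obtain ⟨L, hL⟩ := eps_clm i j k l
  rw [hL v]
  show fderiv ℝ (fun z : Z => eps (cf z.2) i j k l) z v = L v
  simp only [hL]
  rw [L.hasFDerivAt.fderiv]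

theorem smooth_mul_sum {ι : Type} [Fintype ι] {f g : ι → Z → ℝ}
    (hf : ∀ i, ContDiffOn ℝ ∞ (f i) UZ) (hg : ∀ i, ContDiffOn ℝ ∞ (g i) UZ) :
    ContDiffOn ℝ ∞ (fun z => ∑ i, f i z * g i z) UZ :=
  ContDiffOn.sum fun i _ => (hf i).mul (hg i)

theorem cal : CalStatement := by
  refine ⟨isOpen_UZ, fun f hf v => smooth_dr hf v, fun F hF v a b => smooth_dr (hF a b) v,
    fun F G hF hG => ⟨fun a b => (hF a b).add (hG a b), fun a b => (hF a b).sub (hG a b),
      fun a b => ?_, fun a b => hF b a⟩, fun f hf z hz v v' => dr_comm hf hz v v',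
    fun F hF z hz v v' => ?_, fun F G hF hG z hz v => ⟨?_, ?_, ?_⟩,
    fun f g hf hg z hz v => dr_mul (diffAt hf hz) (diffAt hg hz) v,
    fun f hf z hz v => dr_sum (fun i => diffAt (hf i) hz) v,
    fun i j k l => (smooth_eps i j k l).contDiffOn, fun i j k l z _ v => dr_eps i j k l z v,
    fun S T hS hT => ⟨?_, fun z hz v => ?_⟩, fun f hf t => ⟨?_, fun x hx v => ?_⟩⟩
  · have h1 : (fun z => (F z * G z) a b) = fun z => ∑ c, F z a c * G z c b := by
      funext z; rw [Matrix.mul_apply]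
    show ContDiffOn ℝ ∞ (fun z => (F z * G z) a b) UZ
    rw [h1]
    exact smooth_mul_sum (fun c => hF a c) (fun c => hG c b)
  · ext a b
    exact dr_comm (hF a b) hz v v'
  · ext a b
    exact dr_add (diffAt (hF a b) hz) (diffAt (hG a b) hz) v
  · ext a b
    exact dr_sub (diffAt (hF a b) hz) (diffAt (hG a b) hz) v
  · ext a b
    have h1 : (fun z => (F z * G z) a b) = fun z => ∑ c, F z a c * G z c b := by
      funext z; rw [Matrix.mul_apply]
    show dr v (fun z => (F z * G z) a b) z = (dM v F z * G z + F z * dM v G z) a b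
    rw [h1, dr_sum (fun c => (diffAt (hF a c) hz).fun_mul (diffAt (hG c b) hz)) v, Matrix.add_apply,
      Matrix.mul_apply, Matrix.mul_apply, ← Finset.sum_add_distrib]
    refine Finset.sum_congr rfl fun c _ => ?_
    exact dr_mul (diffAt (hF a c) hz) (diffAt (hG c b) hz) v
  · show ContDiffOn ℝ ∞ (fun z : Z => ∑ i, ∑ j, ∑ k, ∑ l,
      eps (cf z.2) i j k l * (S z i j * T z k l)) UZ
    exact ContDiffOn.sum fun i _ => ContDiffOn.sum fun j _ => ContDiffOn.sum fun k _ =>
      ContDiffOn.sum fun l _ => (smooth_eps i j k l).contDiffOn.mul ((hS i j).mul (hT k l))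
  · have he : ∀ i j k l, DifferentiableAt ℝ (fun z : Z => eps (cf z.2) i j k l) z :=
      fun i j k l => (smooth_eps i j k l).contDiffAt.differentiableAt (by simp)
    have hS' : ∀ i j, DifferentiableAt ℝ (fun z => S z i j) z := fun i j => diffAt (hS i j) hz
    have hT' : ∀ i j, DifferentiableAt ℝ (fun z => T z i j) z := fun i j => diffAt (hT i j) hz
    have h4 : ∀ i j k l, DifferentiableAt ℝ
        (fun z : Z => eps (cf z.2) i j k l * (S z i j * T z k l)) z :=
      fun i j k l => (he i j k l).fun_mul ((hS' i j).fun_mul (hT' k l))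
    have h3 : ∀ i j k, DifferentiableAt ℝ
        (fun z : Z => ∑ l, eps (cf z.2) i j k l * (S z i j * T z k l)) z :=
      fun i j k => DifferentiableAt.fun_sum fun l _ => h4 i j k l
    have h2 : ∀ i j, DifferentiableAt ℝ
        (fun z : Z => ∑ k, ∑ l, eps (cf z.2) i j k l * (S z i j * T z k l)) z :=
      fun i j => DifferentiableAt.fun_sum fun k _ => h3 i j k
    have h1 : ∀ i, DifferentiableAt ℝ
        (fun z : Z => ∑ j, ∑ k, ∑ l, eps (cf z.2) i j k l * (S z i j * T z k l)) z :=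
      fun i => DifferentiableAt.fun_sum fun j _ => h2 i j
    show dr v (fun z : Z => ∑ i, ∑ j, ∑ k, ∑ l,
      eps (cf z.2) i j k l * (S z i j * T z k l)) z = _
    rw [dr_sum h1 v]
    have e : ∀ i, dr v (fun z : Z => ∑ j, ∑ k, ∑ l, eps (cf z.2) i j k l * (S z i j * T z k l)) z =
        ∑ j, ∑ k, ∑ l, (eps (cf v.2) i j k l * (S z i j * T z k l) +
          eps (cf z.2) i j k l * (dM v S z i j * T z k l) +
          eps (cf z.2) i j k l * (S z i j * dM v T z k l)) := by
      intro i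
      rw [dr_sum (h2 i) v]
      refine Finset.sum_congr rfl fun j _ => ?_
      rw [dr_sum (h3 i j) v]
      refine Finset.sum_congr rfl fun k _ => ?_
      rw [dr_sum (h4 i j k) v]
      refine Finset.sum_congr rfl fun l _ => ?_
      rw [dr_mul (he i j k l) ((hS' i j).fun_mul (hT' k l)) v, dr_mul (hS' i j) (hT' k l) v, dr_eps]
      show _ = eps (cf v.2) i j k l * (S z i j * T z k l) +
          eps (cf z.2) i j k l * (dr v (fun z => S z i j) z * T z k l) +
          eps (cf z.2) i j k l * (S z i j * dr v (fun z => T z k l) z)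
      ring
    simp only [e, Finset.sum_add_distrib]
    rfl
  · have h1 : ContDiff ℝ ∞ (fun x : E5 => ((t, x) : Z)) := contDiff_const.prodMk contDiff_id
    exact hf.comp h1.contDiffOn fun x hx => ⟨mem_univ _, hx⟩
  · have hz : ((t, x) : Z) ∈ UZ := ⟨mem_univ _, hx⟩
    have h1 : HasFDerivAt (fun y : E5 => ((t, y) : Z)) (ContinuousLinearMap.inr ℝ ℝ E5) x :=
      hasFDerivAt_prodMk_right t x
    have h2 := (diffAt hf hz).hasFDerivAt.comp x h1
    have h3 : fderiv ℝ (fun y => f (t, y)) x =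
        (fderiv ℝ f (t, x)).comp (ContinuousLinearMap.inr ℝ ℝ E5) := h2.fderiv
    rw [h3]
    rfl

end Pool.Agent.GBS.H27
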