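import Pool.Agent.GBS.StmtsB
import Pool.Agent.Helper14_MVS.SDF

/-! Row EMX of the table gbs (MP_33f2b9_gt): the frame matrix. -/

noncomputable section

open scoped ContDiff Topology RealInnerProductSpace
open Set MeasureTheory Matrix

namespace Pool.Agent.GBS.H27

open Pool.Agent.RF Pool.Agent.MVS Pool.Agent.MVS.H14

theorem emx_gram (B : Bil E5) (x : E5) (F : Fin 4 → E5) (i j : Fin 5) :
    ((Em x F)ᵀ * gm B * Em x F) i j = B (ef x F i) (ef x F j) := by
  rw [B_expand B (ef x F i) (ef x F j), Matrix.mul_apply]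
  simp only [Matrix.mul_apply, Matrix.transpose_apply, Finset.sum_mul]
  rw [Finset.sum_comm]
  refine Finset.sum_congr rfl fun l _ => Finset.sum_congr rfl fun k _ => ?_
  simp only [Em, Matrix.of_apply, gm_apply]
  ring

theorem emx_row (B : Bil E5) (x : E5) (F : Fin 4 → E5) (i : Fin 5) (v : E5) :
    (((Em x F)ᵀ * gm B).mulVec (fun j => v j)) i = B (ef x F i) v := by
  rw [B_expand B (ef x F i) v]
  simp only [Matrix.mulVec, dotProduct, Matrix.mul_apply, Matrix.transpose_apply, Finset.sum_mul]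
  rw [Finset.sum_comm]
  refine Finset.sum_congr rfl fun l _ => Finset.sum_congr rfl fun k _ => ?_
  simp only [Em, Matrix.of_apply, gm_apply]
  ring

theorem emx_orth (G : E5 → Bil E5) (x : E5) (F : Fin 4 → E5) (hG : IsCyl G) (hx : x ∈ Om (Fin 5))
    (hF : IsAF G x F) (i j : Fin 5) : G x (ef x F i) (ef x F j) = if i = j then 1 else 0 := by
  have hx0 : x ≠ 0 := by
    intro h
    rw [h] at hx
    simp [Om] at hx
  have hn : ‖x‖ ^ 2 ≠ 0 := pow_ne_zero 2 (norm_ne_zero_iff.mpr hx0)
  have hs : ∀ v w, G x v w = G x w v := hG.metric.symm x hx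
  have hr : ∀ w, G x x w = ⟪x, w⟫ / ‖x‖ ^ 2 := fun w => hG.radial x hx w
  refine Fin.cases ?_ (fun a => ?_) i
  · refine Fin.cases ?_ (fun b => ?_) j
    · simp only [ef, Fin.cons_zero, if_true]
      rw [hr, real_inner_self_eq_norm_sq]
      exact div_self hn
    · rw [if_neg (Fin.succ_ne_zero b).symm]
      simp only [ef, Fin.cons_zero, Fin.cons_succ]
      rw [hr, hF.1 b, zero_div]
  · refine Fin.cases ?_ (fun b => ?_) j
    · rw [if_neg (Fin.succ_ne_zero a)]
      simp only [ef, Fin.cons_zero, Fin.cons_succ]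
      rw [hs, hr, hF.1 a, zero_div]
    · simp only [ef, Fin.cons_succ, Fin.succ_inj]
      exact hF.2 a b

theorem emx : EmxStmt := by
  intro G x F hG hx hF
  have h1 : (Em x F)ᵀ * gm (G x) * Em x F = 1 := by
    ext i j
    rw [emx_gram, emx_orth G x F hG hx hF, Matrix.one_apply]
  have h2 : Em x F * ((Em x F)ᵀ * gm (G x)) = 1 := mul_eq_one_comm.mp h1
  have hinv : (Em x F)⁻¹ = (Em x F)ᵀ * gm (G x) := Matrix.inv_eq_left_inv h1
  have h3 : Em x F * (Em x F)⁻¹ = 1 := by rw [hinv]; exact h2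
  have h4 : (Em x F)⁻¹ * Em x F = 1 := by rw [hinv]; exact h1
  have h5 : (gm (G x))⁻¹ = Em x F * (Em x F)ᵀ := by
    refine Matrix.inv_eq_left_inv ?_
    rw [Matrix.mul_assoc]
    exact h2
  have hpd : 0 < (gm (G x)).det :=
    (gm_posDef (G x) (hG.metric.symm x hx) (hG.metric.pos x hx)).det_pos
  have h6 : |(Em x F).det| * sd (G x) = 1 := by
    have e := congrArg Matrix.det h1
    rw [Matrix.det_mul, Matrix.det_mul, Matrix.det_transpose, Matrix.det_one] at e
    have e2 : (Em x F).det ^ 2 * (gm (G x)).det = 1 := by rw [← e]; ring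
    unfold sd
    rw [← Real.sqrt_sq_eq_abs, ← Real.sqrt_mul (sq_nonneg _), e2, Real.sqrt_one]
  refine ⟨h1, h3, h4, hinv, h5, h6, ?_, ?_⟩
  · intro j
    rw [hinv]
    have e := emx_row (G x) x F 0 (eb j)
    have e2 : (((Em x F)ᵀ * gm (G x)).mulVec (fun k => (eb j : E5) k)) 0 =
        ((Em x F)ᵀ * gm (G x)) 0 j := by
      simp only [Matrix.mulVec, dotProduct]
      rw [Finset.sum_eq_single j]
      · simp [eb]
      · intro b _ hb
        simp [eb, hb]
      · intro h
        exact absurd (Finset.mem_univ j) h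
    rw [← e2, e]
    have e3 : ef x F 0 = x := rfl
    rw [e3, hG.radial x hx]
    congr 1
    rw [eb, EuclideanSpace.inner_single_right]
    simp
  · intro v
    have e : (Em x F).mulVec (((Em x F)ᵀ * gm (G x)).mulVec (fun j => v j)) = fun j => v j := by
      rw [Matrix.mulVec_mulVec, h2, Matrix.one_mulVec]
    ext i
    have e1 := congrFun e i
    simp only [] at e1
    rw [← e1, WithLp.ofLp_sum, Finset.sum_apply]
    simp only [Matrix.mulVec, dotProduct]
    refine Finset.sum_congr rfl fun m _ => ?_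
    have e2 := emx_row (G x) x F m v
    simp only [Matrix.mulVec, dotProduct] at e2
    rw [e2, hG.metric.symm x hx v (ef x F m)]
    simp only [Em, Matrix.of_apply, PiLp.smul_apply, smul_eq_mul]
    ring

end Pool.Agent.GBS.H27
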